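import Pool.Agent.Helper70.BG.Core

/-!
# Project BG, part (I)(A)

In a group with `a w a = w a w⁻¹`, commuting `p q s` inverted by `w`, and
`(p a p⁻¹) (q⁻¹ a q) s = a`: `a² w² = 1`, `(a w)³ = 1`, `w⁴ = 1`.
-/

set_option autoImplicit false

namespace Pool.Agent.Helper70.BG

variable {G : Type*} [Group G]

/-- **basic**: the element `e = a² w²` -/
theorem basic {a w : G} (h1 : a * w * a = w * a * w⁻¹) :
    w * (a * a * (w * w)) * w⁻¹ = (a * a * (w * w)) ^ (2 : ℤ) ∧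
    a⁻¹ * (a * a * (w * w)) * a = (a * a * (w * w)) ^ (2 : ℤ) ∧
    w⁻¹ * a⁻¹ * w * a⁻¹ * w⁻¹ = a⁻¹ * (a * a * (w * w))⁻¹ ∧
    (a * a * (w * w) = 1 → (a * w) ^ (3 : ℤ) = 1) := by
  obtain ⟨y, hy⟩ : ∃ y, y = a * w := ⟨_, rfl⟩
  obtain ⟨η, hη⟩ : ∃ η, η = w⁻¹ * y * w := ⟨_, rfl⟩
  have y2 : y * y = w * y * w⁻¹ := by
    rw [hy]
    calc a * w * (a * w) = (a * w * a) * w := by group
      _ = w * a * w⁻¹ * w := by rw [h1]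
      _ = _ := by group
  have η2 : η * η = y := by
    rw [hη]
    calc w⁻¹ * y * w * (w⁻¹ * y * w) = w⁻¹ * (y * y) * w := by group
      _ = _ := by rw [y2]; group
  have wη : w * η * w⁻¹ = η ^ (2 : ℤ) := by
    calc w * η * w⁻¹ = y := by rw [hη]; group
      _ = η * η := η2.symm
      _ = _ := (zpow_two _).symm
  have wηn : ∀ n : ℤ, w * η ^ n * w⁻¹ = η ^ (2 * n) := fun n => cz wη n
  have ha : a = η ^ (2 : ℤ) * w⁻¹ := by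
    calc a = y * w⁻¹ := by rw [hy]; group
      _ = η * η * w⁻¹ := by rw [η2]
      _ = _ := by rw [zpow_two]
  have he : a * a * (w * w) = η ^ (3 : ℤ) := by
    calc a * a * (w * w) = a * (a * w) * w := by group
      _ = (η ^ (2 : ℤ) * w⁻¹) * y * w := by rw [← ha, ← hy]
      _ = η ^ (2 : ℤ) * η := by rw [hη]; group
      _ = _ := by group
  have aη : a⁻¹ * η * a = η ^ (2 : ℤ) := by
    calc a⁻¹ * η * a = (η ^ (2 : ℤ) * w⁻¹)⁻¹ * η * (η ^ (2 : ℤ) * w⁻¹) := by rw [← ha]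
      _ = w * η * w⁻¹ := by group
      _ = _ := wη
  refine ⟨?_, ?_, ?_, ?_⟩
  · rw [he, wηn, ← zpow_mul]
    norm_num
  · rw [he]
    have h := conj_zpow (i := 3) (a := a⁻¹) (b := η)
    rw [inv_inv] at h
    rw [← h, aη, ← zpow_mul, ← zpow_mul]
    norm_num
  · have h2 : w * a * w⁻¹ * (a * w) = (a * a * (w * w)) * a := by
      calc w * a * w⁻¹ * (a * w) =
            w * (η ^ (2 : ℤ) * w⁻¹) * w⁻¹ * y := by rw [← ha, ← hy]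
        _ = (w * η ^ (2 : ℤ) * w⁻¹) * w⁻¹ * (w * η * w⁻¹) := by rw [hη]; group
        _ = η ^ (2 * 2 : ℤ) * w⁻¹ * η ^ (2 * 1 : ℤ) := by rw [wηn, wη]; norm_num
        _ = η ^ (2 * 2 : ℤ) * w⁻¹ * (w * η ^ (1 : ℤ) * w⁻¹) := by rw [wηn]
        _ = η ^ (3 : ℤ) * (η ^ (2 : ℤ) * w⁻¹) := by group
        _ = _ := by rw [← ha, he]
    calc w⁻¹ * a⁻¹ * w * a⁻¹ * w⁻¹ = (w * a * w⁻¹ * (a * w))⁻¹ := by group
      _ = ((a * a * (w * w)) * a)⁻¹ := by rw [h2]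
      _ = _ := by group
  · intro h
    rw [he] at h
    rw [← hy, ← η2, ← zpow_two, ← zpow_mul, mul_comm, zpow_mul, h, one_zpow]

/-- conjugation by an element which commutes with `z` -/
theorem pack {a z e g a' e' : G} (hg : z * g = g * z) (ha' : a' = g * a * g⁻¹)
    (he' : e' = g * e * g⁻¹) (ze : z * e * z⁻¹ = e ^ (4 : ℤ))
    (aza : a⁻¹ * z * a = e ^ (4 : ℤ) * z) (zaz : z⁻¹ * a * z = a * e⁻¹)
    (b2 : a⁻¹ * e * a = e ^ (2 : ℤ)) (he : e = a * a * z) :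
    z * e' * z⁻¹ = e' ^ (4 : ℤ) ∧ a'⁻¹ * z * a' = e' ^ (4 : ℤ) * z ∧
      z⁻¹ * a' * z = a' * e'⁻¹ ∧ a'⁻¹ * e' * a' = e' ^ (2 : ℤ) ∧ e' = a' * a' * z := by
  have hz : g * z * g⁻¹ = z := by
    rw [← hg]
    group
  subst ha'
  subst he'
  refine ⟨?_, ?_, ?_, ?_, ?_⟩
  · calc z * (g * e * g⁻¹) * z⁻¹ = (g * z * g⁻¹) * (g * e * g⁻¹) * (g * z * g⁻¹)⁻¹ := by rw [hz]
      _ = g * (z * e * z⁻¹) * g⁻¹ := by group
      _ = _ := by rw [ze, conj_zpow]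
  · calc (g * a * g⁻¹)⁻¹ * z * (g * a * g⁻¹) =
          (g * a * g⁻¹)⁻¹ * (g * z * g⁻¹) * (g * a * g⁻¹) := by rw [hz]
      _ = g * (a⁻¹ * z * a) * g⁻¹ := by group
      _ = g * e ^ (4 : ℤ) * g⁻¹ * (g * z * g⁻¹) := by rw [aza]; group
      _ = _ := by rw [hz, conj_zpow]
  · calc z⁻¹ * (g * a * g⁻¹) * z = (g * z * g⁻¹)⁻¹ * (g * a * g⁻¹) * (g * z * g⁻¹) := by rw [hz]
      _ = g * (z⁻¹ * a * z) * g⁻¹ := by group
      _ = _ := by rw [zaz]; group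
  · calc (g * a * g⁻¹)⁻¹ * (g * e * g⁻¹) * (g * a * g⁻¹) = g * (a⁻¹ * e * a) * g⁻¹ := by group
      _ = _ := by rw [b2, conj_zpow]
  · calc g * e * g⁻¹ = g * (a * a * z) * g⁻¹ := by rw [← he]
      _ = (g * a * g⁻¹) * (g * a * g⁻¹) * (g * z * g⁻¹) := by group
      _ = _ := by rw [hz]

/-- **part (A), abstract form** -/
theorem partA {a w p q s : G} (h1 : a * w * a = w * a * w⁻¹) (hp : w * p * w⁻¹ = p⁻¹)
    (hq : w * q * w⁻¹ = q⁻¹) (hs : w * s * w⁻¹ = s⁻¹) (hpq : p * q = q * p)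
    (hqs : q * s = s * q)
    (hR : p * a * p⁻¹ * (q⁻¹ * a * q) * s = a) :
    a * a * (w * w) = 1 ∧ (a * w) ^ (3 : ℤ) = 1 ∧ w * w * (w * w) = 1 := by
  obtain ⟨b1, b2, b3, b4⟩ := basic h1
  obtain ⟨z, hz⟩ : ∃ z, z = w * w := ⟨_, rfl⟩
  obtain ⟨e, he⟩ : ∃ e, e = a * a * z := ⟨_, rfl⟩
  rw [← hz] at b1 b2 b3 b4 ⊢
  rw [← he] at b1 b2 b3 b4 ⊢
  -- `z` commutes with `p q s`
  have zc : ∀ g : G, w * g * w⁻¹ = g⁻¹ → z * g = g * z := by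
    intro g hg
    rw [hz]
    calc w * w * g = w * (w * g * w⁻¹) * w := by group
      _ = w * g⁻¹ * w := by rw [hg]
      _ = (w * g * w⁻¹)⁻¹ * w * w := by group
      _ = _ := by rw [hg, inv_inv, mul_assoc]
  have zp := zc p hp
  have zq := zc q hq
  have zs := zc s hs
  have zw : z * w = w * z := by rw [hz]; group
  -- scaling
  have wen : ∀ n : ℤ, w * e ^ n * w⁻¹ = e ^ (2 * n) := fun n => cz b1 n
  have ze : z * e * z⁻¹ = e ^ (4 : ℤ) := by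
    rw [hz]
    calc w * w * e * (w * w)⁻¹ = w * (w * e * w⁻¹) * w⁻¹ := by group
      _ = e ^ (2 * 2 : ℤ) := by rw [b1, wen]
      _ = _ := by norm_num
  have aza : a⁻¹ * z * a = e ^ (4 : ℤ) * z := by
    calc a⁻¹ * z * a = a⁻¹ * a⁻¹ * (a⁻¹ * (a * a * z) * a) := by group
      _ = a⁻¹ * a⁻¹ * e ^ (2 : ℤ) := by rw [← he, b2]
      _ = a⁻¹ * a⁻¹ * (a * a * z) * e := by rw [zpow_two, ← he]; group
      _ = (z * e * z⁻¹) * z := by group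
      _ = _ := by rw [ze]
  have zaz : z⁻¹ * a * z = a * e⁻¹ := by
    have h2 : a * z * e = z * a := by
      calc a * z * e = a * ((z * e * z⁻¹) * z) := by group
        _ = a * (a⁻¹ * z * a) := by rw [ze, aza]
        _ = _ := by group
    calc z⁻¹ * a * z = z⁻¹ * (a * z * e) * e⁻¹ := by group
      _ = _ := by rw [h2]; group
  -- B1
  have hR2 : p⁻¹ * (a * w * a) * p * (q * (a * w * a) * q⁻¹) * s⁻¹ = a * w * a := by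
    calc p⁻¹ * (a * w * a) * p * (q * (a * w * a) * q⁻¹) * s⁻¹ =
          (w * p * w⁻¹) * (w * a * w⁻¹) * (w * p * w⁻¹)⁻¹ *
            ((w * q * w⁻¹)⁻¹ * (w * a * w⁻¹) * (w * q * w⁻¹)) * (w * s * w⁻¹) := by
            rw [hp, hq, hs, inv_inv, inv_inv, h1]
      _ = w * (p * a * p⁻¹ * (q⁻¹ * a * q) * s) * w⁻¹ := by group
      _ = _ := by rw [hR, h1]
  have hα : p * a * p⁻¹ = a * s⁻¹ * (q⁻¹ * a⁻¹ * q) := by
    calc p * a * p⁻¹ = (p * a * p⁻¹ * (q⁻¹ * a * q) * s) * s⁻¹ * (q⁻¹ * a⁻¹ * q) := by group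
      _ = _ := by rw [hR]
  have d1 : a⁻¹ * p * a = s⁻¹ * (q⁻¹ * a⁻¹ * q) * p := by
    calc a⁻¹ * p * a = a⁻¹ * (p * a * p⁻¹) * p := by group
      _ = _ := by rw [hα]; group
  have d2 : a * q * s * a⁻¹ = q * p * a⁻¹ * p⁻¹ := by
    calc a * q * s * a⁻¹ = (p * a * p⁻¹ * q⁻¹)⁻¹ * (p * a * p⁻¹ * (q⁻¹ * a * q) * s) * a⁻¹ := by
          group
      _ = _ := by rw [hR]; group
  have wi : ∀ g : G, w * g * w⁻¹ = g⁻¹ → w⁻¹ * g⁻¹ = g * w⁻¹ := by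
    intro g hg
    rw [← hg]
    group
  have B1 : q⁻¹ * a * q * (p * a * p⁻¹) = s * (a⁻¹ * e⁻¹) := by
    have f0 : a * p * q * a = w⁻¹ * (a⁻¹ * p * a) * w * (a * q * s * a⁻¹) * w⁻¹ := by
      calc a * p * q * a = w⁻¹ * a⁻¹ * p *
            (p⁻¹ * (a * w * a) * p * (q * (a * w * a) * q⁻¹) * s⁻¹) * (s * q) * a⁻¹ * w⁻¹ := by
              group
        _ = w⁻¹ * a⁻¹ * p * (a * w * a) * (q * s) * a⁻¹ * w⁻¹ := by rw [hR2, hqs]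
        _ = _ := by group
    have f1 : q⁻¹ * w⁻¹ * s⁻¹ * q⁻¹ = s * w⁻¹ := by
      calc q⁻¹ * w⁻¹ * s⁻¹ * q⁻¹ = q⁻¹ * (w⁻¹ * s⁻¹) * q⁻¹ := by group
        _ = q⁻¹ * s * (w⁻¹ * q⁻¹) := by rw [wi s hs]; group
        _ = q⁻¹ * (s * q) * w⁻¹ := by rw [wi q hq]; group
        _ = _ := by rw [← hqs]; group
    have f2 : q * p * w * q * p = w := by
      calc q * p * w * q * p = q * p * (w * q * w⁻¹) * (w * p * w⁻¹) * w := by group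
        _ = p * q * q⁻¹ * p⁻¹ * w := by rw [hp, hq, hpq]
        _ = _ := by group
    have f3 : p⁻¹ * w⁻¹ * p⁻¹ = w⁻¹ := by
      calc p⁻¹ * w⁻¹ * p⁻¹ = p⁻¹ * (w⁻¹ * p⁻¹) := by group
        _ = _ := by rw [wi p hp]; group
    calc q⁻¹ * a * q * (p * a * p⁻¹) = q⁻¹ * (a * (q * p) * a) * p⁻¹ := by group
      _ = q⁻¹ * (a * p * q * a) * p⁻¹ := by rw [← hpq]; group
      _ = q⁻¹ * (w⁻¹ * (s⁻¹ * (q⁻¹ * a⁻¹ * q) * p) * w * (q * p * a⁻¹ * p⁻¹) * w⁻¹) * p⁻¹ := by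
          rw [f0, d1, d2]
      _ = (q⁻¹ * w⁻¹ * s⁻¹ * q⁻¹) * a⁻¹ * (q * p * w * q * p) * a⁻¹ * (p⁻¹ * w⁻¹ * p⁻¹) := by
          group
      _ = s * (w⁻¹ * a⁻¹ * w * a⁻¹ * w⁻¹) := by rw [f1, f2, f3]; group
      _ = _ := by rw [b3]
  obtain ⟨α, hαd⟩ : ∃ α, α = p * a * p⁻¹ := ⟨_, rfl⟩
  obtain ⟨γ, hγd⟩ : ∃ γ, γ = q⁻¹ * a * q := ⟨_, rfl⟩
  obtain ⟨Y, hY⟩ : ∃ Y, Y = p * e * p⁻¹ := ⟨_, rfl⟩
  obtain ⟨Z, hZ⟩ : ∃ Z, Z = q⁻¹ * e * q := ⟨_, rfl⟩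
  obtain ⟨X, hX⟩ : ∃ X, X = s * e * s⁻¹ := ⟨_, rfl⟩
  obtain ⟨pa1, pa2, -, pa4, pa5⟩ := pack (g := p) (a' := α) (e' := Y) zp hαd hY ze aza zaz b2 he
  have zq' : z * q⁻¹ = q⁻¹ * z := by
    calc z * q⁻¹ = q⁻¹ * (q * z) * q⁻¹ := by group
      _ = _ := by rw [← zq]; group
  obtain ⟨pc1, pc2, pc3, -, pc5⟩ := pack (g := q⁻¹) (a' := γ) (e' := Z) zq'
    (by rw [hγd, inv_inv]) (by rw [hZ, inv_inv]) ze aza zaz b2 he
  obtain ⟨ps1, -, -, -, -⟩ := pack (g := s) (a' := s * a * s⁻¹) (e' := X) zs rfl hX ze aza zaz b2 he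
  rw [← hγd, ← hαd] at B1 hR
  -- P1
  have P41 : γ⁻¹ * Y ^ (4 : ℤ) * γ = X ^ (4 : ℤ) * Z ^ (-4 : ℤ) := by
    have k1 : α⁻¹ * p * α = p * s⁻¹ * γ⁻¹ := by
      have h : α * p = p * α * γ * s := by
        calc α * p = p * a := by rw [hαd]; group
          _ = p * (α * γ * s) := by rw [hR]
          _ = _ := by group
      calc α⁻¹ * p * α = α⁻¹ * (p * α * γ * s) * s⁻¹ * γ⁻¹ := by group
        _ = p * s⁻¹ * γ⁻¹ := by rw [← h]; group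
    have k2 : Y ^ (4 : ℤ) * z * (p * s⁻¹ * γ⁻¹) = p * s⁻¹ * γ⁻¹ * (Y ^ (4 : ℤ) * z) := by
      rw [← pa2, ← k1]
      calc α⁻¹ * z * α * (α⁻¹ * p * α) = α⁻¹ * (z * p) * α := by group
        _ = _ := by rw [zp]; group
    have k3 : s * p⁻¹ * Y ^ (4 : ℤ) * z * p * s⁻¹ = X ^ (4 : ℤ) * z := by
      have h : Y ^ (4 : ℤ) = p * e ^ (4 : ℤ) * p⁻¹ := by rw [hY, conj_zpow]
      have h' : X ^ (4 : ℤ) = s * e ^ (4 : ℤ) * s⁻¹ := by rw [hX, conj_zpow]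
      rw [h, h']
      calc s * p⁻¹ * (p * e ^ (4 : ℤ) * p⁻¹) * z * p * s⁻¹ =
            s * e ^ (4 : ℤ) * p⁻¹ * (z * p) * s⁻¹ := by group
        _ = s * e ^ (4 : ℤ) * s⁻¹ * (s * z) * s⁻¹ := by rw [zp]; group
        _ = _ := by rw [← zs]; group
    calc γ⁻¹ * Y ^ (4 : ℤ) * γ = (s * p⁻¹) * (p * s⁻¹ * γ⁻¹ * (Y ^ (4 : ℤ) * z)) * z⁻¹ * γ := by
          group
      _ = (s * p⁻¹ * Y ^ (4 : ℤ) * z * p * s⁻¹) * (γ⁻¹ * z * γ)⁻¹ := by rw [← k2]; group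
      _ = _ := by rw [k3, pc2]; group
  have P11 : γ⁻¹ * Y * γ = Z⁻¹ * X := by
    have k1 : z⁻¹ * Y ^ (4 : ℤ) * z = Y := by
      rw [← pa1]
      group
    have k2 : z⁻¹ * X ^ (4 : ℤ) * z = X := by
      rw [← ps1]
      group
    have k3 : z⁻¹ * Z ^ (-4 : ℤ) * z = Z⁻¹ := by
      have h : Z ^ (-4 : ℤ) = (z * Z * z⁻¹)⁻¹ := by
        rw [pc1]
        group
      rw [h]
      group
    have k4 : (z⁻¹ * γ * z)⁻¹ * (z⁻¹ * Y ^ (4 : ℤ) * z) * (z⁻¹ * γ * z) =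
        (z⁻¹ * X ^ (4 : ℤ) * z) * (z⁻¹ * Z ^ (-4 : ℤ) * z) := by
      calc (z⁻¹ * γ * z)⁻¹ * (z⁻¹ * Y ^ (4 : ℤ) * z) * (z⁻¹ * γ * z) =
            z⁻¹ * (γ⁻¹ * Y ^ (4 : ℤ) * γ) * z := by group
        _ = _ := by rw [P41]; group
    rw [k1, k2, k3, pc3] at k4
    calc γ⁻¹ * Y * γ = Z⁻¹ * ((γ * Z⁻¹)⁻¹ * Y * (γ * Z⁻¹)) * Z := by group
      _ = _ := by rw [k4]; group
  have P1 : (Z⁻¹ * X) ^ (4 : ℤ) = X ^ (4 : ℤ) * Z ^ (-4 : ℤ) := by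
    rw [← P11, ← P41]
    have h := conj_zpow (i := 4) (a := γ⁻¹) (b := Y)
    rw [inv_inv] at h
    exact h
  -- H3
  have H3 : Z⁻¹ * X * (Z⁻¹ * X) = z * (Z⁻¹ * X ^ (2 : ℤ)) * z := by
    have k1 : α⁻¹ * α⁻¹ = z * Y⁻¹ := by
      rw [pa5]
      group
    have k2 : γ * γ = s * a⁻¹ * e⁻¹ * z * Y⁻¹ * a * s⁻¹ := by
      have h : γ = α⁻¹ * (a * s⁻¹) := by
        calc γ = α⁻¹ * (α * γ * s) * s⁻¹ := by group
          _ = _ := by rw [hR]; group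
      have h' : γ * α * α⁻¹ * α⁻¹ * (a * s⁻¹) = γ * γ := by
        calc γ * α * α⁻¹ * α⁻¹ * (a * s⁻¹) = γ * (α⁻¹ * (a * s⁻¹)) := by group
          _ = _ := by rw [← h]
      rw [← h', B1]
      calc s * (a⁻¹ * e⁻¹) * α⁻¹ * α⁻¹ * (a * s⁻¹) = s * (a⁻¹ * e⁻¹) * (α⁻¹ * α⁻¹) * (a * s⁻¹) := by
            group
        _ = _ := by rw [k1]; group
    have k3 : s * a⁻¹ * Y * a * s⁻¹ = Z⁻¹ * X * (Z⁻¹ * X) := by
      have h : a = α * γ * s := hR.symm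
      calc s * a⁻¹ * Y * a * s⁻¹ = s * (α * γ * s)⁻¹ * Y * (α * γ * s) * s⁻¹ := by rw [hR]
        _ = γ⁻¹ * (α⁻¹ * Y * α) * γ := by group
        _ = (γ⁻¹ * Y * γ) * (γ⁻¹ * Y * γ) := by rw [pa4, zpow_two]; group
        _ = _ := by rw [P11]
    have k4 : s * a⁻¹ * e * a * s⁻¹ = X ^ (2 : ℤ) := by
      calc s * a⁻¹ * e * a * s⁻¹ = s * (a⁻¹ * e * a) * s⁻¹ := by group
        _ = _ := by rw [b2, hX, conj_zpow]
    have k5 : s * a⁻¹ * z * a * s⁻¹ = X ^ (4 : ℤ) * z := by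
      calc s * a⁻¹ * z * a * s⁻¹ = s * (a⁻¹ * z * a) * s⁻¹ := by group
        _ = s * e ^ (4 : ℤ) * s⁻¹ * (s * z) * s⁻¹ := by rw [aza]; group
        _ = (s * e * s⁻¹) ^ (4 : ℤ) * z := by rw [← zs, conj_zpow]; group
        _ = _ := by rw [hX]
    have k6 : γ * γ = (X ^ (2 : ℤ))⁻¹ * (X ^ (4 : ℤ) * z) * (Z⁻¹ * X * (Z⁻¹ * X))⁻¹ := by
      rw [← k3, ← k4, ← k5, k2]
      group
    have k7 : γ * γ = Z * z⁻¹ := by
      rw [pc5]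
      group
    have k8 : Z * z⁻¹ * (Z⁻¹ * X * (Z⁻¹ * X)) = X ^ (2 : ℤ) * z := by
      rw [← k7, k6]
      group
    calc Z⁻¹ * X * (Z⁻¹ * X) = z * Z⁻¹ * (Z * z⁻¹ * (Z⁻¹ * X * (Z⁻¹ * X))) := by group
      _ = _ := by rw [k8]; group
  obtain ⟨g, hg⟩ : ∃ g, g = s * q⁻¹ * w := ⟨_, rfl⟩
  obtain ⟨x, hx⟩ : ∃ x, x = g ^ (-3 : ℤ) * Z * (g ^ (-3 : ℤ))⁻¹ := ⟨_, rfl⟩
  have qi : q⁻¹ * s⁻¹ = s⁻¹ * q⁻¹ := by
    rw [← mul_inv_rev, ← mul_inv_rev, hqs]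
  have gg : g * g = z := by
    rw [hg]
    calc s * q⁻¹ * w * (s * q⁻¹ * w) = s * q⁻¹ * (w * s * w⁻¹) * (w * q * w⁻¹)⁻¹ * (w * w) := by
          group
      _ = s * (q⁻¹ * s⁻¹) * q * z := by rw [hs, hq, inv_inv, hz]; group
      _ = _ := by rw [qi]; group
  have zg : z * g = g * z := by
    rw [← gg]
    group
  have zgi : ∀ n : ℤ, z * g ^ n = g ^ n * z := fun n => by
    have h : Commute z g := zg
    exact (h.zpow_right n).eq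
  have gX : g * X * g⁻¹ = Z ^ (2 : ℤ) := by
    rw [hX, hg, hZ]
    calc s * q⁻¹ * w * (s * e * s⁻¹) * (s * q⁻¹ * w)⁻¹ =
          s * q⁻¹ * (w * s * w⁻¹) * (w * e * w⁻¹) * (w * s * w⁻¹)⁻¹ * q * s⁻¹ := by group
      _ = s * (q⁻¹ * s⁻¹) * e ^ (2 : ℤ) * (s * q) * s⁻¹ := by rw [hs, b1]; group
      _ = q⁻¹ * e ^ (2 : ℤ) * (q⁻¹)⁻¹ := by rw [qi, ← hqs]; group
      _ = (q⁻¹ * e * q) ^ (2 : ℤ) := by rw [← conj_zpow, inv_inv]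
  have hx1 : z * x * z⁻¹ = x ^ (4 : ℤ) := by
    rw [hx, conj_zpow, ← pc1]
    calc z * (g ^ (-3 : ℤ) * Z * (g ^ (-3 : ℤ))⁻¹) * z⁻¹ =
          (z * g ^ (-3 : ℤ)) * Z * (z * g ^ (-3 : ℤ))⁻¹ := by group
      _ = _ := by rw [zgi]; group
  have hx4 : x ^ (4 : ℤ) = g⁻¹ * Z * g := by
    rw [← hx1, hx, ← gg]
    group
  have hZ4 : g * x ^ (4 : ℤ) * g⁻¹ = Z := by
    rw [hx4]
    group
  have hx8 : x ^ (8 : ℤ) = X := by
    calc x ^ (8 : ℤ) = x ^ (4 : ℤ) * x ^ (4 : ℤ) := by group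
      _ = g⁻¹ * (Z ^ (2 : ℤ)) * g := by rw [hx4, zpow_two]; group
      _ = _ := by rw [← gX]; group
  have hx16 : x ^ (16 : ℤ) = X ^ (2 : ℤ) := by
    rw [← hx8]
    group
  have hx32 : x ^ (32 : ℤ) = X ^ (4 : ℤ) := by
    rw [← hx8]
    group
  obtain ⟨c1, c2⟩ := core gg hx1 hZ4 (by rw [hx8, hx16]; exact H3) (by rw [hx8, hx32]; exact P1)
  have hzz : e = z * z := by
    rw [c2, hx8, hX]
    have h : z * z * s = s * (z * z) := by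
      have hc : Commute z s := zs
      exact (hc.mul_left hc).eq
    have h2 : z * z = s * e * s⁻¹ := by rw [c2, hx8, hX]
    calc e = s⁻¹ * (s * e * s⁻¹) * s := by group
      _ = s⁻¹ * (z * z * s) := by rw [← h2]; group
      _ = z * z := by rw [h]; group
      _ = _ := h2
  have he1 : e = 1 := by
    have h1 : w * e * w⁻¹ = e := by
      rw [hzz, hz]
      group
    rw [b1, zpow_two] at h1
    exact mul_eq_left.mp h1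
  refine ⟨he1, b4 he1, ?_⟩
  have hX1 : X = 1 := by rw [hX, he1]; group
  have hZ1 : Z = 1 := by rw [hZ, he1]; group
  rw [hX1, hZ1] at H3
  have h : (1 : G) = z * z := by
    calc (1 : G) = 1⁻¹ * 1 * (1⁻¹ * 1) := by group
      _ = z * (1⁻¹ * 1 ^ (2 : ℤ)) * z := H3
      _ = _ := by group
  exact h.symm

/-- **part (A)** for the presentation `⟨a, w, t | a w a = w a w⁻¹, w⁻¹ t w = t⁻¹, a_l = a_0 a_k t^h⟩`,
`a_i = t^{-i} a t^i`. -/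
theorem partA_t {a w t : G} {l k h : ℤ} (h1 : a * w * a = w * a * w⁻¹)
    (ht : w⁻¹ * t * w = t⁻¹)
    (hR : t ^ (-l) * a * t ^ l = a * (t ^ (-k) * a * t ^ k) * t ^ h) :
    a * a = w * w ∧ w * w * (w * w) = 1 ∧ (a * w) ^ (3 : ℤ) = 1 ∧
      w * w * a = a * (w * w) ∧ w * w * t = t * (w * w) ∧ w * (w * w) = w * w * w := by
  have ht' : w * t * w⁻¹ = t⁻¹ := by
    calc w * t * w⁻¹ = w * (t⁻¹)⁻¹ * w⁻¹ := by rw [inv_inv]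
      _ = w * (w⁻¹ * t * w)⁻¹ * w⁻¹ := by rw [← ht]
      _ = _ := by group
  have hn : ∀ n : ℤ, w * t ^ n * w⁻¹ = (t ^ n)⁻¹ := by
    intro n
    rw [← conj_zpow, ht', inv_zpow]
  have hc : ∀ m n : ℤ, t ^ m * t ^ n = t ^ n * t ^ m := fun m n => by
    rw [← zpow_add, ← zpow_add, add_comm]
  obtain ⟨r1, r2, r3⟩ := partA (p := t ^ l) (q := t ^ (k - l)) (s := t ^ h) h1 (hn _) (hn _)
    (hn _) (hc _ _) (hc _ _) (by
      calc t ^ l * a * (t ^ l)⁻¹ * ((t ^ (k - l))⁻¹ * a * t ^ (k - l)) * t ^ h =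
            t ^ l * (a * (t ^ (-k) * a * t ^ k) * t ^ h) * t ^ (-h) * t ^ (-l) * t ^ h := by
              rw [zpow_sub]
              group
        _ = t ^ l * (t ^ (-l) * a * t ^ l) * t ^ (-h) * t ^ (-l) * t ^ h := by rw [← hR]
        _ = a * (t ^ l * t ^ (-h)) * t ^ (-l) * t ^ h := by group
        _ = _ := by rw [hc l (-h)]; group)
  have r4 : a * a = (w * w)⁻¹ := eq_inv_of_mul_eq_one_left r1
  have r5 : (w * w)⁻¹ = w * w := inv_eq_of_mul_eq_one_left r3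
  have r6 : a * a = w * w := r4.trans r5
  refine ⟨r6, r3, r2, ?_, ?_, ?_⟩
  · rw [← r6, mul_assoc]
  · calc w * w * t = w * (w * t * w⁻¹) * w := by group
      _ = w * t⁻¹ * w := by rw [ht']
      _ = (w * t * w⁻¹)⁻¹ * w * w := by group
      _ = _ := by rw [ht', inv_inv, mul_assoc]
  · group

end Pool.Agent.Helper70.BG
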