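import Mathlib

/-!
# Project BG, part (I)(A): the core word computation

`x g z Z` with `g² = z`, `z x z⁻¹ = x⁴`, `Z = g x⁴ g⁻¹` and the two relations `H3`, `P1` below satisfy
`x³ = 1`, `Z = x`, `z² = x²`.
-/

set_option autoImplicit false

namespace Pool.Agent.Helper70.BG

variable {G : Type*} [Group G]

/-- powers of a conjugate -/
theorem cz {u v v' : G} {m : ℤ} (h : u * v * u⁻¹ = v' ^ m) (n : ℤ) :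
    u * v ^ n * u⁻¹ = v' ^ (m * n) := by
  rw [← conj_zpow, h, ← zpow_mul]

/-- the group `⟨x, i | i² = 1, i x⁻³ i = x¹⁶ i x⁸⟩` with a root: `i = 1`, `x^27 = 1` -/
theorem inv_core {x i x' : G} (hi : i * i = 1) (hJ : i * x ^ (-3 : ℤ) * i = x ^ (16 : ℤ) * i * x ^ (8 : ℤ))
    (h4 : x = x' ^ 4) (hx' : ∀ n : ℕ, x ^ n = 1 → x' ^ n = 1) : x ^ 27 = 1 ∧ i = 1 := by
  obtain ⟨u, hu⟩ : ∃ u, u = i * x * i := ⟨_, rfl⟩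
  have hii : i⁻¹ = i := inv_eq_of_mul_eq_one_left hi
  have hun : ∀ n : ℤ, i * x ^ n * i = u ^ n := by
    intro n
    have h := conj_zpow (i := n) (a := i) (b := x)
    rw [hii] at h
    rw [hu, h]
  have hxn : ∀ n : ℤ, i * u ^ n * i = x ^ n := by
    intro n
    rw [← hun]
    calc i * (i * x ^ n * i) * i = (i * i) * x ^ n * (i * i) := by group
      _ = x ^ n := by rw [hi, one_mul, mul_one]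
  -- the forms of `i`
  have F2 : i = x ^ (-16 : ℤ) * u ^ (-3 : ℤ) * x ^ (-8 : ℤ) := by
    rw [← hun, hJ]
    group
  have F1 : i = x ^ (8 : ℤ) * u ^ (3 : ℤ) * x ^ (16 : ℤ) := by
    calc i = i⁻¹ := hii.symm
      _ = (x ^ (-16 : ℤ) * u ^ (-3 : ℤ) * x ^ (-8 : ℤ))⁻¹ := by rw [← F2]
      _ = _ := by group
  have F3 : i = x ^ (-8 : ℤ) * u ^ (-16 : ℤ) * x ^ (-3 : ℤ) := by
    have h1 : x ^ (-3 : ℤ) = u ^ (16 : ℤ) * x ^ (8 : ℤ) * i := by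
      calc x ^ (-3 : ℤ) = i * (i * x ^ (-3 : ℤ) * i) * i := by
            rw [hun, hxn]
        _ = i * (x ^ (16 : ℤ) * i * x ^ (8 : ℤ)) * i := by rw [hJ]
        _ = (i * x ^ (16 : ℤ) * i) * x ^ (8 : ℤ) * i := by group
        _ = _ := by rw [hun]
    rw [h1]
    group
  have F4 : i = x ^ (3 : ℤ) * u ^ (16 : ℤ) * x ^ (8 : ℤ) := by
    calc i = i⁻¹ := hii.symm
      _ = (x ^ (-8 : ℤ) * u ^ (-16 : ℤ) * x ^ (-3 : ℤ))⁻¹ := by rw [← F3]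
      _ = _ := by group
  have hA : u ^ (3 : ℤ) = x ^ (-8 : ℤ) * i * x ^ (-16 : ℤ) := by
    calc u ^ (3 : ℤ) = x ^ (-8 : ℤ) * (x ^ (8 : ℤ) * u ^ (3 : ℤ) * x ^ (16 : ℤ)) *
          x ^ (-16 : ℤ) := by group
      _ = _ := by rw [← F1]
  have hB : u ^ (16 : ℤ) = x ^ (-3 : ℤ) * i * x ^ (-8 : ℤ) := by
    calc u ^ (16 : ℤ) = x ^ (-3 : ℤ) * (x ^ (3 : ℤ) * u ^ (16 : ℤ) * x ^ (8 : ℤ)) *
          x ^ (-8 : ℤ) := by group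
      _ = _ := by rw [← F4]
  have hB' : u ^ (-16 : ℤ) = x ^ (8 : ℤ) * i * x ^ (3 : ℤ) := by
    calc u ^ (-16 : ℤ) = x ^ (8 : ℤ) * (x ^ (-8 : ℤ) * u ^ (-16 : ℤ) * x ^ (-3 : ℤ)) *
          x ^ (3 : ℤ) := by group
      _ = _ := by rw [← F3]
  have h19 : u ^ (19 : ℤ) = x ^ (5 : ℤ) * i * x ^ (-13 : ℤ) := by
    calc u ^ (19 : ℤ) = u ^ (16 : ℤ) * u ^ (3 : ℤ) := by group
      _ = x ^ (-3 : ℤ) * i * x ^ (-8 : ℤ) * (x ^ (-8 : ℤ) * i * x ^ (-16 : ℤ)) := by rw [hA, hB]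
      _ = x ^ (-3 : ℤ) * (i * x ^ (-16 : ℤ) * i) * x ^ (-16 : ℤ) := by group
      _ = x ^ (-3 : ℤ) * (x ^ (8 : ℤ) * i * x ^ (3 : ℤ)) * x ^ (-16 : ℤ) := by rw [hun, hB']
      _ = _ := by group
  have F6 : i = x ^ (-5 : ℤ) * u ^ (19 : ℤ) * x ^ (13 : ℤ) := by
    rw [h19]
    group
  have F5 : i = x ^ (-13 : ℤ) * u ^ (-19 : ℤ) * x ^ (5 : ℤ) := by
    calc i = i⁻¹ := hii.symm
      _ = (x ^ (-5 : ℤ) * u ^ (19 : ℤ) * x ^ (13 : ℤ))⁻¹ := by rw [← F6]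
      _ = _ := by group
  have h5 : u ^ (5 : ℤ) = x ^ (3 : ℤ) * u ^ (-3 : ℤ) * x ^ (5 : ℤ) := by
    calc u ^ (5 : ℤ) = i * x ^ (5 : ℤ) * i := (hun 5).symm
      _ = (x ^ (3 : ℤ) * u ^ (16 : ℤ) * x ^ (8 : ℤ)) * x ^ (5 : ℤ) *
          (x ^ (-13 : ℤ) * u ^ (-19 : ℤ) * x ^ (5 : ℤ)) := by rw [← F4, ← F5]
      _ = _ := by group
  have h8 : u ^ (8 : ℤ) = x ^ (-8 : ℤ) * u ^ (3 : ℤ) * x ^ (13 : ℤ) := by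
    calc u ^ (8 : ℤ) = i * x ^ (8 : ℤ) * i := (hun 8).symm
      _ = (x ^ (-8 : ℤ) * u ^ (-16 : ℤ) * x ^ (-3 : ℤ)) * x ^ (8 : ℤ) *
          (x ^ (-5 : ℤ) * u ^ (19 : ℤ) * x ^ (13 : ℤ)) := by rw [← F3, ← F6]
      _ = _ := by group
  have h8' : u ^ (8 : ℤ) = x ^ (3 : ℤ) * u ^ (13 : ℤ) * x ^ (-8 : ℤ) := by
    calc u ^ (8 : ℤ) = i * x ^ (8 : ℤ) * i := (hun 8).symm
      _ = (x ^ (3 : ℤ) * u ^ (16 : ℤ) * x ^ (8 : ℤ)) * x ^ (8 : ℤ) *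
          (x ^ (-16 : ℤ) * u ^ (-3 : ℤ) * x ^ (-8 : ℤ)) := by rw [← F4, ← F2]
      _ = _ := by group
  have h5' : u ^ (5 : ℤ) = x ^ (-16 : ℤ) * u ^ (13 : ℤ) * x ^ (8 : ℤ) := by
    calc u ^ (5 : ℤ) = i * x ^ (5 : ℤ) * i := (hun 5).symm
      _ = (x ^ (-16 : ℤ) * u ^ (-3 : ℤ) * x ^ (-8 : ℤ)) * x ^ (5 : ℤ) *
          (x ^ (3 : ℤ) * u ^ (16 : ℤ) * x ^ (8 : ℤ)) := by rw [← F2, ← F4]
      _ = _ := by group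
  -- `x^54 = 1`
  have e1 : x ^ (-8 : ℤ) * u ^ (3 : ℤ) * x ^ (13 : ℤ) =
      x ^ (22 : ℤ) * u ^ (-3 : ℤ) * x ^ (-11 : ℤ) := by
    have h13 : u ^ (13 : ℤ) = x ^ (16 : ℤ) * (x ^ (3 : ℤ) * u ^ (-3 : ℤ) * x ^ (5 : ℤ)) *
        x ^ (-8 : ℤ) := by
      rw [← h5, h5']
      group
    rw [← h8, h8', h13]
    group
  have e2 : u ^ (3 : ℤ) = x ^ (-24 : ℤ) * u ^ (-3 : ℤ) * x ^ (-24 : ℤ) := by
    calc u ^ (3 : ℤ) = x ^ (-8 : ℤ) * i * x ^ (-16 : ℤ) := hA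
      _ = x ^ (-8 : ℤ) * (x ^ (-16 : ℤ) * u ^ (-3 : ℤ) * x ^ (-8 : ℤ)) * x ^ (-16 : ℤ) := by
          rw [← F2]
      _ = _ := by group
  have h54 : x ^ 54 = 1 := by
    have h1 : x ^ (30 : ℤ) * u ^ (-3 : ℤ) * x ^ (-24 : ℤ) =
        x ^ (-24 : ℤ) * u ^ (-3 : ℤ) * x ^ (-24 : ℤ) := by
      rw [← e2]
      calc x ^ (30 : ℤ) * u ^ (-3 : ℤ) * x ^ (-24 : ℤ) =
            x ^ (8 : ℤ) * (x ^ (22 : ℤ) * u ^ (-3 : ℤ) * x ^ (-11 : ℤ)) * x ^ (-13 : ℤ) := by group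
        _ = x ^ (8 : ℤ) * (x ^ (-8 : ℤ) * u ^ (3 : ℤ) * x ^ (13 : ℤ)) * x ^ (-13 : ℤ) := by rw [e1]
        _ = _ := by group
    have h2 : x ^ (30 : ℤ) = x ^ (-24 : ℤ) := mul_right_cancel (mul_right_cancel h1)
    calc x ^ 54 = x ^ (30 : ℤ) * x ^ (24 : ℤ) := by group
      _ = 1 := by rw [h2]; group
  have h27 : x ^ 27 = 1 := by
    have h1 := hx' 54 h54
    calc x ^ 27 = (x' ^ 54) ^ 2 := by rw [h4]; group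
      _ = 1 := by rw [h1, one_pow]
  have h27z : x ^ (27 : ℤ) = 1 := by exact_mod_cast h27
  have hu27 : u ^ (27 : ℤ) = 1 := by rw [← hun, h27z, mul_one, hi]
  -- `u = x`
  have F7 : i = x ^ (13 : ℤ) * u ^ (-5 : ℤ) * x ^ (19 : ℤ) := by
    have h3 : u ^ (-3 : ℤ) = x ^ (-3 : ℤ) * u ^ (5 : ℤ) * x ^ (-5 : ℤ) := by
      rw [h5]
      group
    have h3' : u ^ (3 : ℤ) = x ^ (5 : ℤ) * u ^ (-5 : ℤ) * x ^ (3 : ℤ) := by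
      calc u ^ (3 : ℤ) = (u ^ (-3 : ℤ))⁻¹ := by group
        _ = (x ^ (-3 : ℤ) * u ^ (5 : ℤ) * x ^ (-5 : ℤ))⁻¹ := by rw [h3]
        _ = _ := by group
    rw [F1, h3']
    group
  have hm : u ^ (-27 : ℤ) = x ^ (13 : ℤ) * u ^ (-2 : ℤ) * x ^ (16 : ℤ) := by
    calc u ^ (-27 : ℤ) = i * x ^ (-27 : ℤ) * i := (hun _).symm
      _ = (x ^ (13 : ℤ) * u ^ (-5 : ℤ) * x ^ (19 : ℤ)) * x ^ (-27 : ℤ) *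
          (x ^ (8 : ℤ) * u ^ (3 : ℤ) * x ^ (16 : ℤ)) := by rw [← F7, ← F1]
      _ = _ := by group
  have h2 : u ^ (2 : ℤ) = x ^ (29 : ℤ) := by
    have h1 : x ^ (13 : ℤ) * u ^ (-2 : ℤ) * x ^ (16 : ℤ) = 1 := by
      rw [← hm, zpow_neg, hu27, inv_one]
    calc u ^ (2 : ℤ) = x ^ (16 : ℤ) * (x ^ (13 : ℤ) * u ^ (-2 : ℤ) * x ^ (16 : ℤ))⁻¹ *
          x ^ (13 : ℤ) := by group
      _ = x ^ (29 : ℤ) := by rw [h1]; group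
  have hux : u = x := by
    calc u = (u ^ (2 : ℤ)) ^ (14 : ℤ) * (u ^ (27 : ℤ))⁻¹ := by group
      _ = (x ^ (29 : ℤ)) ^ (14 : ℤ) := by rw [h2, hu27, inv_one, mul_one]
      _ = (x ^ (27 : ℤ)) ^ (15 : ℤ) * x := by group
      _ = x := by rw [h27z, one_zpow, one_mul]
  refine ⟨h27, ?_⟩
  calc i = x ^ (-16 : ℤ) * u ^ (-3 : ℤ) * x ^ (-8 : ℤ) := F2
    _ = (x ^ (27 : ℤ))⁻¹ := by rw [hux]; group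
    _ = 1 := by rw [h27z, inv_one]

/-- **core** -/
theorem core {x g z Z : G} (hg : g * g = z) (hx : z * x * z⁻¹ = x ^ (4 : ℤ))
    (hZ : g * x ^ (4 : ℤ) * g⁻¹ = Z)
    (H3 : Z⁻¹ * x ^ (8 : ℤ) * (Z⁻¹ * x ^ (8 : ℤ)) = z * (Z⁻¹ * x ^ (16 : ℤ)) * z)
    (P1 : (Z⁻¹ * x ^ (8 : ℤ)) ^ (4 : ℤ) = x ^ (32 : ℤ) * Z ^ (-4 : ℤ)) :
    x ^ (3 : ℤ) = 1 ∧ z * z = x ^ (8 : ℤ) := by
  have zx : ∀ n : ℤ, z * x ^ n * z⁻¹ = x ^ (4 * n) := fun n => cz hx n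
  have gx : ∀ n : ℤ, g * x ^ (4 * n) * g⁻¹ = Z ^ n := by
    intro n
    rw [zpow_mul, ← conj_zpow, hZ]
  have gZ1 : g * Z * g⁻¹ = x ^ (16 : ℤ) := by
    rw [← hZ]
    calc g * (g * x ^ (4 : ℤ) * g⁻¹) * g⁻¹ = (g * g) * x ^ (4 : ℤ) * (g * g)⁻¹ := by group
      _ = x ^ (16 : ℤ) := by rw [hg, zx]; norm_num
  have gZ : ∀ n : ℤ, g * Z ^ n * g⁻¹ = x ^ (16 * n) := fun n => cz gZ1 n
  have zZ1 : z * Z * z⁻¹ = Z ^ (4 : ℤ) := by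
    rw [← hg]
    calc g * g * Z * (g * g)⁻¹ = g * (g * Z * g⁻¹) * g⁻¹ := by group
      _ = g * x ^ (4 * 4 : ℤ) * g⁻¹ := by rw [gZ1]; norm_num
      _ = Z ^ (4 : ℤ) := gx 4
  have zZ : ∀ n : ℤ, z * Z ^ n * z⁻¹ = Z ^ (4 * n) := fun n => cz zZ1 n
  -- D1
  have D1 : z * z = Z ^ (3 : ℤ) * x ^ (8 : ℤ) * Z⁻¹ * x ^ (4 : ℤ) := by
    calc z * z = Z ^ (4 : ℤ) * ((Z ^ (4 * (-1) : ℤ)) * (x ^ (4 * 16 : ℤ)) * z * z) *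
          (z * z)⁻¹ * x ^ (-64 : ℤ) * (z * z) := by group
      _ = Z ^ (4 : ℤ) * ((z * Z ^ (-1 : ℤ) * z⁻¹) * (z * x ^ (16 : ℤ) * z⁻¹) * z * z) *
          (z * z)⁻¹ * x ^ (-64 : ℤ) * (z * z) := by rw [zZ, zx]
      _ = Z ^ (4 : ℤ) * (z * (Z⁻¹ * x ^ (16 : ℤ)) * z) *
          (z * z)⁻¹ * x ^ (-64 : ℤ) * (z * z) := by group
      _ = Z ^ (4 : ℤ) * (Z⁻¹ * x ^ (8 : ℤ) * (Z⁻¹ * x ^ (8 : ℤ))) *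
          (z⁻¹ * (z⁻¹ * x ^ (4 * (4 * (-4)) : ℤ) * z) * z) := by rw [← H3]; group
      _ = Z ^ (4 : ℤ) * (Z⁻¹ * x ^ (8 : ℤ) * (Z⁻¹ * x ^ (8 : ℤ))) *
          (z⁻¹ * (z⁻¹ * (z * (z * x ^ (-4 : ℤ) * z⁻¹) * z⁻¹) * z) * z) := by rw [zx, zx]
      _ = _ := by group
  -- h4
  have h4 : (Z⁻¹ * x ^ (8 : ℤ)) ^ (4 : ℤ) = z * x ^ (8 : ℤ) * (Z⁻¹ * x ^ (8 : ℤ)) *
      x ^ (-8 : ℤ) * z⁻¹ := by
    rw [P1]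
    calc x ^ (32 : ℤ) * Z ^ (-4 : ℤ) = x ^ (4 * 8 : ℤ) * Z ^ (4 * (-1) : ℤ) := by norm_num
      _ = (z * x ^ (8 : ℤ) * z⁻¹) * (z * Z ^ (-1 : ℤ) * z⁻¹) := by rw [zx, zZ]
      _ = _ := by group
  have hp : ∀ p : G, p ^ (4 : ℤ) * p ^ (4 : ℤ) = p ^ (4 : ℤ) * (p * p) * (p * p) := fun p => by
    group
  -- A1
  have A1 : z * z = x ^ (-16 : ℤ) * Z ^ (-2 : ℤ) * x ^ (-80 : ℤ) * Z := by
    have h8 : z * x ^ (8 : ℤ) * (z * (Z⁻¹ * x ^ (16 : ℤ)) * z) * x ^ (-8 : ℤ) * z⁻¹ =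
        z * x ^ (8 : ℤ) * (Z⁻¹ * x ^ (8 : ℤ)) * x ^ (-8 : ℤ) * z⁻¹ *
          (z * (Z⁻¹ * x ^ (16 : ℤ)) * z) * (z * (Z⁻¹ * x ^ (16 : ℤ)) * z) := by
      rw [← h4, ← H3]
      calc z * x ^ (8 : ℤ) * (Z⁻¹ * x ^ (8 : ℤ) * (Z⁻¹ * x ^ (8 : ℤ))) * x ^ (-8 : ℤ) * z⁻¹ =
            (z * x ^ (8 : ℤ) * (Z⁻¹ * x ^ (8 : ℤ)) * x ^ (-8 : ℤ) * z⁻¹) *
            (z * x ^ (8 : ℤ) * (Z⁻¹ * x ^ (8 : ℤ)) * x ^ (-8 : ℤ) * z⁻¹) := by group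
        _ = (Z⁻¹ * x ^ (8 : ℤ)) ^ (4 : ℤ) * (Z⁻¹ * x ^ (8 : ℤ)) ^ (4 : ℤ) := by rw [← h4]
        _ = _ := hp _
    have h9 : z * Z⁻¹ * x ^ (16 : ℤ) * x ^ (-32 : ℤ) = Z⁻¹ * Z⁻¹ * x ^ (16 : ℤ) * (z * z) *
        Z⁻¹ * x ^ (16 : ℤ) * z := by
      calc z * Z⁻¹ * x ^ (16 : ℤ) * x ^ (-32 : ℤ) =
            z * Z⁻¹ * x ^ (16 : ℤ) * (x ^ (4 * (-8) : ℤ)) := by norm_num
        _ = z * Z⁻¹ * x ^ (16 : ℤ) * (z * x ^ (-8 : ℤ) * z⁻¹) := by rw [zx]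
        _ = (z * x ^ (8 : ℤ))⁻¹ *
            (z * x ^ (8 : ℤ) * (z * (Z⁻¹ * x ^ (16 : ℤ)) * z) * x ^ (-8 : ℤ) * z⁻¹) := by group
        _ = (z * x ^ (8 : ℤ))⁻¹ * (z * x ^ (8 : ℤ) * (Z⁻¹ * x ^ (8 : ℤ)) * x ^ (-8 : ℤ) * z⁻¹ *
          (z * (Z⁻¹ * x ^ (16 : ℤ)) * z) * (z * (Z⁻¹ * x ^ (16 : ℤ)) * z)) := by rw [h8]
        _ = _ := by group
    calc z * z = x ^ (-16 : ℤ) * Z ^ (2 : ℤ) * (Z⁻¹ * Z⁻¹ * x ^ (16 : ℤ) * (z * z) *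
          Z⁻¹ * x ^ (16 : ℤ) * z) * z⁻¹ * x ^ (-16 : ℤ) * Z := by group
      _ = x ^ (-16 : ℤ) * Z ^ (2 : ℤ) * (z * Z⁻¹ * x ^ (16 : ℤ) * x ^ (-32 : ℤ)) * z⁻¹ *
          x ^ (-16 : ℤ) * Z := by rw [← h9]
      _ = x ^ (-16 : ℤ) * Z ^ (2 : ℤ) * (z * Z ^ (-1 : ℤ) * z⁻¹) * (z * x ^ (-16 : ℤ) * z⁻¹) *
          x ^ (-16 : ℤ) * Z := by group
      _ = x ^ (-16 : ℤ) * Z ^ (2 : ℤ) * Z ^ (4 * (-1) : ℤ) * x ^ (4 * (-16) : ℤ) *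
          x ^ (-16 : ℤ) * Z := by rw [zZ, zx]
      _ = _ := by group
  have gzz : g * (z * z) * g⁻¹ = z * z := by
    rw [← hg]
    group
  -- D2
  have D2 : z * z = x ^ (48 : ℤ) * Z ^ (2 : ℤ) * x ^ (-16 : ℤ) * Z := by
    calc z * z = g * (z * z) * g⁻¹ := gzz.symm
      _ = g * (Z ^ (3 : ℤ) * x ^ (8 : ℤ) * Z⁻¹ * x ^ (4 : ℤ)) * g⁻¹ := by rw [← D1]
      _ = (g * Z ^ (3 : ℤ) * g⁻¹) * (g * x ^ (4 * 2 : ℤ) * g⁻¹) * (g * Z ^ (-1 : ℤ) * g⁻¹) *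
          (g * x ^ (4 * 1 : ℤ) * g⁻¹) := by group
      _ = x ^ (16 * 3 : ℤ) * Z ^ (2 : ℤ) * x ^ (16 * (-1) : ℤ) * Z ^ (1 : ℤ) := by
          rw [gZ, gx, gZ, gx]
      _ = _ := by group
  -- A4
  have A4 : z * z = Z⁻¹ * x ^ (-8 : ℤ) * Z ^ (-5 : ℤ) * x ^ (4 : ℤ) := by
    have h1 : z * z = Z ^ (4 * (-1) : ℤ) * x ^ (4 * (-8) : ℤ) * Z ^ (4 * (-5) : ℤ) *
        x ^ (4 * 4 : ℤ) := by
      calc z * z = g * (z * z) * g⁻¹ := gzz.symm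
        _ = g * (x ^ (-16 : ℤ) * Z ^ (-2 : ℤ) * x ^ (-80 : ℤ) * Z) * g⁻¹ := by rw [← A1]
        _ = (g * x ^ (4 * (-4) : ℤ) * g⁻¹) * (g * Z ^ (-2 : ℤ) * g⁻¹) *
            (g * x ^ (4 * (-20) : ℤ) * g⁻¹) * (g * Z ^ (1 : ℤ) * g⁻¹) := by group
        _ = Z ^ (-4 : ℤ) * x ^ (16 * (-2) : ℤ) * Z ^ (-20 : ℤ) * x ^ (16 * 1 : ℤ) := by
            rw [gx, gZ, gx, gZ]
        _ = _ := by norm_num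
    calc z * z = z⁻¹ * (z * z) * z := by group
      _ = z⁻¹ * (Z ^ (4 * (-1) : ℤ) * x ^ (4 * (-8) : ℤ) * Z ^ (4 * (-5) : ℤ) *
        x ^ (4 * 4 : ℤ)) * z := by rw [← h1]
      _ = z⁻¹ * ((z * Z ^ (-1 : ℤ) * z⁻¹) * (z * x ^ (-8 : ℤ) * z⁻¹) * (z * Z ^ (-5 : ℤ) * z⁻¹) *
        (z * x ^ (4 : ℤ) * z⁻¹)) * z := by rw [zZ, zx, zZ, zx]
      _ = _ := by group
  -- E1
  have E1 : Z ^ (4 : ℤ) * x ^ (8 : ℤ) * Z ^ (4 : ℤ) = x ^ (-8 : ℤ) := by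
    calc Z ^ (4 : ℤ) * x ^ (8 : ℤ) * Z ^ (4 : ℤ) =
          Z * (Z ^ (3 : ℤ) * x ^ (8 : ℤ) * Z⁻¹ * x ^ (4 : ℤ)) * x ^ (-4 : ℤ) * Z ^ (5 : ℤ) := by
            group
      _ = Z * (Z⁻¹ * x ^ (-8 : ℤ) * Z ^ (-5 : ℤ) * x ^ (4 : ℤ)) * x ^ (-4 : ℤ) * Z ^ (5 : ℤ) := by
            rw [← D1, ← A4]
      _ = _ := by group
  have E1' : Z * x ^ (2 : ℤ) * Z = x ^ (-2 : ℤ) := by
    calc Z * x ^ (2 : ℤ) * Z = z⁻¹ * ((z * Z ^ (1 : ℤ) * z⁻¹) * (z * x ^ (2 : ℤ) * z⁻¹) *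
          (z * Z ^ (1 : ℤ) * z⁻¹)) * z := by group
      _ = z⁻¹ * (Z ^ (4 * 1 : ℤ) * x ^ (4 * 2 : ℤ) * Z ^ (4 * 1 : ℤ)) * z := by rw [zZ, zx]
      _ = z⁻¹ * (Z ^ (4 : ℤ) * x ^ (8 : ℤ) * Z ^ (4 : ℤ)) * z := by norm_num
      _ = z⁻¹ * (x ^ (4 * (-2) : ℤ)) * z := by rw [E1]; norm_num
      _ = z⁻¹ * (z * x ^ (-2 : ℤ) * z⁻¹) * z := by rw [zx]
      _ = _ := by group
  -- E2
  have E2 : x ^ (64 : ℤ) * Z ^ (2 : ℤ) * x ^ (64 : ℤ) = Z ^ (-2 : ℤ) := by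
    calc x ^ (64 : ℤ) * Z ^ (2 : ℤ) * x ^ (64 : ℤ) =
          x ^ (16 * 4 : ℤ) * Z ^ (2 : ℤ) * x ^ (16 * 4 : ℤ) := by norm_num
      _ = (g * Z ^ (4 : ℤ) * g⁻¹) * (g * x ^ (4 * 2 : ℤ) * g⁻¹) * (g * Z ^ (4 : ℤ) * g⁻¹) := by
          rw [gZ, gx]
      _ = g * (Z ^ (4 : ℤ) * x ^ (8 : ℤ) * Z ^ (4 : ℤ)) * g⁻¹ := by group
      _ = g * x ^ (4 * (-2) : ℤ) * g⁻¹ := by rw [E1]; norm_num
      _ = _ := gx _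
  -- J
  have J : Z * x ^ (-1 : ℤ) * Z = x ^ (16 : ℤ) * Z * x ^ (8 : ℤ) := by
    have h1 : z * z * x ^ (-3 : ℤ) = x ^ (-48 : ℤ) * (z * z) := by
      calc z * z * x ^ (-3 : ℤ) = z * (z * x ^ (-3 : ℤ) * z⁻¹) * z⁻¹ * (z * z) := by group
        _ = x ^ (4 * (4 * (-3)) : ℤ) * (z * z) := by rw [zx, zx]
        _ = _ := by norm_num
    have h2 : Z ^ (2 : ℤ) * x ^ (-16 : ℤ) * Z = Z ^ (3 : ℤ) * x ^ (8 : ℤ) * Z⁻¹ * x := by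
      calc Z ^ (2 : ℤ) * x ^ (-16 : ℤ) * Z =
            x ^ (-48 : ℤ) * (x ^ (48 : ℤ) * Z ^ (2 : ℤ) * x ^ (-16 : ℤ) * Z) := by group
        _ = z * z * x ^ (-3 : ℤ) := by rw [← D2, h1]
        _ = Z ^ (3 : ℤ) * x ^ (8 : ℤ) * Z⁻¹ * x ^ (4 : ℤ) * x ^ (-3 : ℤ) := by rw [← D1]
        _ = _ := by group
    calc Z * x ^ (-1 : ℤ) * Z = x ^ (16 : ℤ) * Z ^ (-2 : ℤ) *
          (Z ^ (2 : ℤ) * x ^ (-16 : ℤ) * Z) * x ^ (-1 : ℤ) * Z := by group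
      _ = x ^ (16 : ℤ) * Z ^ (-2 : ℤ) * (Z ^ (3 : ℤ) * x ^ (8 : ℤ) * Z⁻¹ * x) * x ^ (-1 : ℤ) *
          Z := by rw [h2]
      _ = _ := by group
  -- the involution
  obtain ⟨h27, hi1⟩ := inv_core (x := x) (i := Z * x ^ (2 : ℤ)) (x' := z⁻¹ * x * z)
    (by
      calc Z * x ^ (2 : ℤ) * (Z * x ^ (2 : ℤ)) = (Z * x ^ (2 : ℤ) * Z) * x ^ (2 : ℤ) := by group
        _ = 1 := by rw [E1']; group)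
    (by
      calc Z * x ^ (2 : ℤ) * x ^ (-3 : ℤ) * (Z * x ^ (2 : ℤ)) =
            (Z * x ^ (-1 : ℤ) * Z) * x ^ (2 : ℤ) := by group
        _ = _ := by rw [J]; group)
    (by
      have h := conj_pow (i := 4) (a := z⁻¹) (b := x)
      rw [inv_inv] at h
      rw [h]
      calc x = z⁻¹ * (z * x * z⁻¹) * z := by group
        _ = _ := by rw [hx]; group)
    (by
      intro n hn
      have h := conj_pow (i := n) (a := z⁻¹) (b := x)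
      rw [inv_inv] at h
      rw [h, hn]
      group)
  have hZx : Z = x ^ (-2 : ℤ) := by
    calc Z = Z * x ^ (2 : ℤ) * x ^ (-2 : ℤ) := by group
      _ = _ := by rw [hi1, one_mul]
  have h27z : x ^ (27 : ℤ) = 1 := by exact_mod_cast h27
  have h120 : x ^ (120 : ℤ) = 1 := by
    rw [hZx] at E2
    calc x ^ (120 : ℤ) = x ^ (64 : ℤ) * (x ^ (-2 : ℤ)) ^ (2 : ℤ) * x ^ (64 : ℤ) *
          ((x ^ (-2 : ℤ)) ^ (-2 : ℤ))⁻¹ := by group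
      _ = 1 := by rw [E2, mul_inv_cancel]
  refine ⟨?_, ?_⟩
  · calc x ^ (3 : ℤ) = (x ^ (27 : ℤ)) ^ (9 : ℤ) * ((x ^ (120 : ℤ)) ^ (2 : ℤ))⁻¹ := by group
      _ = 1 := by rw [h27z, h120]; group
  · rw [D1, hZx]
    group

end Pool.Agent.Helper70.BG
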